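import Pool.Agent.H.MP_e2d16f_an.B

set_option autoImplicit false
open Finset

namespace Pool.Agent.H.MP_e2d16f_an

variable {n : ℕ}

def MT (D : Fin n → Fin n → ℝ) (M : ℝ) : Prop :=
  ∀ (μ : Fin n → ℝ) (A : Matrix (Fin n) (Fin n) ℝ), (∀ i, 0 ≤ μ i) → ∑ i, μ i = 1 → St A →
    (∀ i j, μ i * A i j = μ j * A j i) → ∀ t : ℕ,
      ∑ i, ∑ j, μ i * (A ^ t) i j * D i j ^ 2 ≤ M ^ 2 * t * ∑ i, ∑ j, μ i * A i j * D i j ^ 2

open Classical in
noncomputable def ind (p : Prop) : ℝ := if p then 1 else 0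

lemma ind_nonneg (p : Prop) : 0 ≤ ind p := by unfold ind; split_ifs <;> simp
lemma ind_le (p : Prop) : ind p ≤ 1 := by unfold ind; split_ifs <;> simp
lemma ind_pos {p : Prop} (h : p) : ind p = 1 := by simp [ind, h]
lemma ind_neg {p : Prop} (h : ¬ p) : ind p = 0 := by simp [ind, h]
lemma ind_mono {p q : Prop} (h : p → q) : ind p ≤ ind q := by
  by_cases hp : p
  · rw [ind_pos hp, ind_pos (h hp)]
  · rw [ind_neg hp]; exact ind_nonneg _

lemma modif {D : Fin n → Fin n → ℝ} {M : ℝ} (hM : MT D M) (hD : ∀ x, D x x = 0) {μ : Fin n → ℝ}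
    {A : Matrix (Fin n) (Fin n) ℝ} (h0 : ∀ i, 0 ≤ μ i) (h1 : ∑ i, μ i = 1) (hA : St A)
    (hr : ∀ i j, μ i * A i j = μ j * A j i) {β : ℝ} (b0 : 0 ≤ β) (b1 : β < 1) (Rg : Fin n → Prop) :
    ∃ Q : Matrix (Fin n) (Fin n) ℝ, St Q ∧
      (∀ g : Fin n → ℝ, (∀ z, 0 ≤ g z) → ∀ x,
        (Rg x → β * ∑ y, A x y * ∑ z, Q y z * g z ≤ ∑ z, Q x z * g z) ∧
        (¬ Rg x → g x + β * ∑ y, A x y * (ind (Rg y) * ∑ z, Q y z * g z) ≤ 2 * ∑ z, Q x z * g z)) ∧
      ∑ x, ∑ z, μ x * ind (¬ Rg x) * Q x z * D x z ^ 2 ≤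
        M ^ 2 * ∑ x, ∑ y, μ x * A x y * D x y ^ 2 * (ind (Rg x) + ind (Rg y)) := by
  classical
  have hk : 0 < 1 - β := by linarith
  obtain ⟨a, ha⟩ : ∃ a : Fin n → ℝ, a = fun x => ∑ y, A x y * ind (Rg y) := ⟨_, rfl⟩
  have a1 : ∀ x, a x ≤ 1 := fun x => by
    rw [ha, ← hA.2 x]
    exact sum_le_sum fun y _ => mul_le_of_le_one_right (hA.1 _ _) (ind_le _)
  have a2 : ∀ x, β ≤ 1 - (1 - β) * a x := fun x => by nlinarith [a1 x]
  obtain ⟨B, hB⟩ : ∃ B : Matrix (Fin n) (Fin n) ℝ, ∀ x y, B x y = if Rg x then A x y else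
    (1 - β) * (A x y * ind (Rg y)) + if x = y then 1 - (1 - β) * a x else 0 :=
    ⟨Matrix.of fun x y => _, fun _ _ => rfl⟩
  have sB : St B := by
    refine ⟨fun x y => ?_, fun x => ?_⟩
    · have := mul_nonneg hk.le (mul_nonneg (hA.1 x y) (ind_nonneg (Rg y)))
      rw [hB]
      split_ifs
      · exact hA.1 _ _
      · linarith [a2 x]
      · linarith
    · by_cases h : Rg x
      · simp only [hB, if_pos h, hA.2]
      · simp only [hB, if_neg h, sum_add_distrib, ← mul_sum, sum_ite_eq, mem_univ, if_true, ha]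
        ring
  obtain ⟨k, hk'⟩ : ∃ k : Fin n → ℝ, ∀ x, k x = if Rg x then 1 - β else 1 := ⟨_, fun _ => rfl⟩
  have k1 : ∀ x, 1 - β ≤ k x := fun x => by rw [hk']; split_ifs <;> linarith
  obtain ⟨Z, hZ⟩ : ∃ Z, Z = ∑ x, μ x * k x := ⟨_, rfl⟩
  have Z0 : 0 < Z := by
    refine lt_of_lt_of_le hk ?_
    refine le_trans (le_of_eq ?_) (hZ ▸ sum_le_sum fun x _ => mul_le_mul_of_nonneg_left (k1 x) (h0 x))
    rw [← sum_mul, h1, one_mul]
  obtain ⟨Q, sQ, q1, -, q3⟩ := res sB b0 b1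
  refine ⟨Q, sQ, fun g hg x => ⟨fun h => ?_, fun h => ?_⟩, ?_⟩
  · rw [q1 g x]
    simp only [hB, if_pos h]
    linarith [mul_nonneg hk.le (hg x)]
  · have e := q1 g x
    have u0 : 0 ≤ ∑ z, Q x z * g z := sum_nonneg fun z _ => mul_nonneg (sQ.1 _ _) (hg z)
    simp only [hB, if_neg h, add_mul, sum_add_distrib, ite_mul, zero_mul, sum_ite_eq, mem_univ,
      if_true, mul_assoc, ← mul_sum] at e
    generalize ∑ z, Q x z * g z = u at *
    generalize ∑ y, A x y * (ind (Rg y) * ∑ z, Q y z * g z) = s at *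
    refine le_of_mul_le_mul_left ?_ hk
    have := mul_le_mul_of_nonneg_left (mul_le_mul_of_nonneg_right (a2 x) u0) b0
    nlinarith [mul_nonneg u0 (sq_nonneg (1 - β))]
  · have m := hM (fun x => μ x * k x / Z) B
      (fun x => div_nonneg (mul_nonneg (h0 x) (hk.le.trans (k1 x))) Z0.le)
      (by rw [← sum_div, ← hZ, div_self Z0.ne']) sB (fun x y => by
        have := hr x y
        by_cases hx : Rg x <;> by_cases hy : Rg y
        · simp only [hB, hk', if_pos hx, if_pos hy]; linear_combination (1 - β) / Z * this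
        · have : y ≠ x := fun h => hy (h ▸ hx)
          simp only [hB, hk', if_pos hx, if_neg hy, ind_pos hx, if_neg this]
          linear_combination (1 - β) / Z * hr x y
        · have : x ≠ y := fun h => hx (h ▸ hy)
          simp only [hB, hk', if_pos hy, if_neg hx, ind_pos hy, if_neg this]
          linear_combination (1 - β) / Z * hr x y
        · by_cases h : x = y
          · rw [h]
          · simp [hB, hx, hy, h, Ne.symm h, ind_neg])
    obtain ⟨E, hE⟩ : ∃ E, E = ∑ x, ∑ y, μ x * A x y * D x y ^ 2 * (ind (Rg x) + ind (Rg y)) :=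
      ⟨_, rfl⟩
    have tn : ∀ x y, 0 ≤ μ x * A x y * D x y ^ 2 := fun x y =>
      mul_nonneg (mul_nonneg (h0 x) (hA.1 x y)) (sq_nonneg _)
    have E0 : 0 ≤ E := hE ▸ sum_nonneg fun x _ => sum_nonneg fun y _ =>
      mul_nonneg (tn x y) (add_nonneg (ind_nonneg _) (ind_nonneg _))
    have en : ∑ x, ∑ y, μ x * k x / Z * B x y * D x y ^ 2 ≤ (1 - β) / Z * E := by
      rw [hE]
      simp only [mul_sum]
      refine sum_le_sum fun x _ => sum_le_sum fun y _ => ?_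
      have c0 : 0 ≤ (1 - β) / Z := by positivity
      by_cases hx : Rg x
      · simp only [hB, hk', if_pos hx, ind_pos hx]
        have := mul_nonneg c0 (mul_nonneg (tn x y) (ind_nonneg (Rg y)))
        refine le_trans (le_of_eq (by ring)) ((le_add_of_nonneg_right this).trans_eq
          (show (1 - β) / Z * (μ x * A x y * D x y ^ 2) + _ = _ by ring))
      · simp only [hB, hk', if_neg hx, ind_neg hx]
        by_cases h : x = y
        · subst h; simp [hD]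
        · rw [if_neg h]; exact le_of_eq (by ring)
    have := q3 (fun x => μ x * k x / Z) (fun x y => D x y ^ 2) (M ^ 2 * ((1 - β) / Z * E)) fun t =>
      (m t).trans (by
        rw [mul_right_comm]
        exact mul_le_mul_of_nonneg_right (mul_le_mul_of_nonneg_left en (sq_nonneg _)) t.cast_nonneg)
    rw [← hE]
    refine le_of_mul_le_mul_left ?_ (inv_pos.2 Z0)
    refine le_trans ?_ (this.trans ?_)
    · simp only [mul_sum]
      refine sum_le_sum fun x _ => sum_le_sum fun y _ => ?_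
      have : 0 ≤ Z⁻¹ * μ x * Q x y * D x y ^ 2 :=
        mul_nonneg (mul_nonneg (mul_nonneg (inv_pos.2 Z0).le (h0 x)) (sQ.1 x y)) (sq_nonneg _)
      have i1 : ind (¬ Rg x) ≤ k x := by
        by_cases hx : Rg x
        · rw [ind_neg (not_not.2 hx)]; linarith [k1 x]
        · rw [ind_pos hx, hk', if_neg hx]
      exact le_trans (le_of_eq (by ring)) ((mul_le_mul_of_nonneg_left i1 this).trans_eq (by ring))
    · have : M ^ 2 * ((1 - β) / Z * E) * (β / (1 - β)) = Z⁻¹ * (M ^ 2 * E) * β := by field_simp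
      rw [this]
      exact mul_le_of_le_one_right (by positivity) b1.le

noncomputable def G (R : Matrix (Fin n) (Fin n) ℝ) (D : Fin n → Fin n → ℝ) (c : ℝ) (o x : Fin n) :
    ℝ := ∑ z, R x z * ind (c ≤ D o z)

lemma G_nonneg {R : Matrix (Fin n) (Fin n) ℝ} (h : St R) (D : Fin n → Fin n → ℝ) (c : ℝ)
    (o x : Fin n) : 0 ≤ G R D c o x := sum_nonneg fun _ _ => mul_nonneg (h.1 _ _) (ind_nonneg _)

lemma G_mono {R : Matrix (Fin n) (Fin n) ℝ} (h : St R) {D : Fin n → Fin n → ℝ} {c c' : ℝ}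
    {o o' : Fin n} (hc : ∀ z, c ≤ D o z → c' ≤ D o' z) (x : Fin n) : G R D c o x ≤ G R D c' o' x :=
  sum_le_sum fun z _ => mul_le_mul_of_nonneg_left (ind_mono (hc z)) (h.1 _ _)

lemma G_compl {R : Matrix (Fin n) (Fin n) ℝ} (h : St R) {D : Fin n → Fin n → ℝ} {c c' : ℝ}
    {o o' : Fin n} (hc : ∀ z, D o z < c → c' ≤ D o' z) (x : Fin n) :
    1 ≤ G R D c o x + G R D c' o' x := by
  rw [← h.2 x, G, G, ← sum_add_distrib]
  refine sum_le_sum fun z _ => ?_
  rw [← mul_add]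
  refine le_mul_of_one_le_right (h.1 _ _) ?_
  rcases le_or_gt c (D o z) with h1 | h1
  · linarith [ind_pos h1, ind_nonneg (c' ≤ D o' z)]
  · linarith [ind_pos (hc z h1), ind_nonneg (c ≤ D o z)]

lemma G_le {R : Matrix (Fin n) (Fin n) ℝ} (h : St R) (D : Fin n → Fin n → ℝ) (c : ℝ)
    (o x : Fin n) : G R D c o x ≤ 1 := by
  rw [← h.2 x]
  exact sum_le_sum fun z _ => mul_le_of_le_one_right (h.1 _ _) (ind_le _)

lemma scale {D : Fin n → Fin n → ℝ} {M : ℝ} (hM : MT D M) (hD : ∀ x, D x x = 0)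
    (hs : ∀ x y, D x y = D y x) (ht : ∀ x y z, D x z ≤ D x y + D y z) {μ : Fin n → ℝ}
    {A : Matrix (Fin n) (Fin n) ℝ} (h0 : ∀ i, 0 ≤ μ i) (h1 : ∑ i, μ i = 1) (hA : St A)
    (hr : ∀ i j, μ i * A i j = μ j * A j i) {β : ℝ} (b0 : 0 ≤ β) (b1 : β < 1)
    {R : Matrix (Fin n) (Fin n) ℝ} (sR : St R)
    (r1 : ∀ (g : Fin n → ℝ) x, ∑ z, R x z * g z =
      (1 - β) * g x + β * ∑ y, A x y * ∑ z, R y z * g z)
    (r2 : ∀ y, ∑ x, μ x * R x y = μ y) {l : ℝ} (hl : 0 < l) (t : ℕ) :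
    l ^ 2 * (β ^ t * ∑ w : Fin (t + 1) → Fin n, μ (w 0) * wt A w * ind (∃ s, 5 * l ≤ D (w 0) (w s)))
      ≤ 6 * ∑ x, ∑ z, μ x * R x z * (l ^ 2 * ind (l ≤ D x z)) + (1 - β)⁻¹ *
        (4 * (M ^ 2 * ∑ x, ∑ y, μ x * A x y * D x y ^ 2 *
          (ind (1 / 2 < G R D l x x ∧ ¬ 1 / 2 < G R D (4 * l) x x) +
            ind (1 / 2 < G R D l y y ∧ ¬ 1 / 2 < G R D (4 * l) y y))) +
        ∑ x, ∑ y, μ x * A x y * (l ^ 2 * ind (l ≤ D x y))) := by
  classical
  have hk : 0 < 1 - β := by linarith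
  obtain ⟨B, hB⟩ : ∃ B : ℝ → Fin n → Prop, ∀ c x, B c x ↔ 1 / 2 < G R D c x x :=
    ⟨_, fun _ _ => Iff.rfl⟩
  simp only [← hB]
  obtain ⟨Q, sQ, q1, q2⟩ := modif hM hD h0 h1 hA hr b0 b1 fun x => B l x ∧ ¬ B (4 * l) x
  have qa : ∀ c o x, B l x ∧ ¬ B (4 * l) x → β * ∑ y, A x y * G Q D c o y ≤ G Q D c o x :=
    fun c o x => (q1 _ (fun z => ind_nonneg _) x).1
  have qb : ∀ c o x, ¬ (B l x ∧ ¬ B (4 * l) x) → ind (c ≤ D o x) +
      β * ∑ y, A x y * (ind (B l y ∧ ¬ B (4 * l) y) * G Q D c o y) ≤ 2 * G Q D c o x :=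
    fun c o x => (q1 (fun z => ind (c ≤ D o z)) (fun z => ind_nonneg _) x).2
  have s0 : ∀ c o x, 0 ≤ β * ∑ y, A x y * (ind (B l y ∧ ¬ B (4 * l) y) * G Q D c o y) :=
    fun c o x => mul_nonneg b0 (sum_nonneg fun y _ => mul_nonneg (hA.1 _ _)
      (mul_nonneg (ind_nonneg _) (G_nonneg sQ ..)))
  obtain ⟨e, he⟩ : ∃ e : Fin n → ℝ, ∀ x, e x = 4 * (ind (¬ (B l x ∧ ¬ B (4 * l) x)) * G Q D l x x) +
    ∑ y, A x y * ind (l ≤ D x y) := ⟨_, fun _ => rfl⟩
  have e0 : ∀ x, 0 ≤ e x := fun x => he x ▸ add_nonneg (mul_nonneg (by norm_num)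
    (mul_nonneg (ind_nonneg _) (G_nonneg sQ ..)))
    (sum_nonneg fun y _ => mul_nonneg (hA.1 _ _) (ind_nonneg _))
  obtain ⟨N, hN⟩ : ∃ N : Fin n → ℝ, ∀ x, N x = ∑ z, R x z * ((1 - β)⁻¹ * e z) := ⟨_, fun _ => rfl⟩
  have N0 : ∀ x, 0 ≤ N x := fun x => hN x ▸ sum_nonneg fun z _ => mul_nonneg (sR.1 _ _)
    (mul_nonneg (inv_pos.2 hk).le (e0 z))
  have N1 : ∀ x, N x = e x + β * ∑ y, A x y * N y := fun x => by
    simp only [hN]
    rw [r1, mul_inv_cancel_left₀ hk.ne']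
  have G1 : ∀ c o x, β * ∑ y, A x y * G R D c o y ≤ G R D c o x := fun c o x => by
    unfold G
    rw [r1 _ x]
    linarith [mul_nonneg hk.le (ind_nonneg (c ≤ D o x))]
  obtain ⟨φ, hφ⟩ : ∃ φ : Fin n → Fin n → ℝ, ∀ o y, φ o y = if B (4 * l) y then ind (3 * l ≤ D o y)
    else if B l y then 2 * G Q D (3 * l) o y else 0 := ⟨_, fun _ _ => rfl⟩
  have φ0 : ∀ o y, 0 ≤ φ o y := fun o y => by
    rw [hφ]
    split_ifs
    exacts [ind_nonneg _, mul_nonneg zero_le_two (G_nonneg sQ ..), le_rfl]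
  have sup : ∀ o x, 1 ≤ 2 * G R D l o x + N x + φ o x ∨ (¬ 5 * l ≤ D o x ∧
      β * ∑ y, A x y * (2 * G R D l o y + N y + φ o y) ≤ 2 * G R D l o x + N x + φ o x) := by
    intro o x
    have g0 := G_nonneg sR D l o x
    have n0 := N0 x
    have p0 := φ0 o x
    by_cases c1 : B (4 * l) x
    · left
      rcases le_or_gt (3 * l) (D o x) with h | h
      · have : φ o x = 1 := by rw [hφ, if_pos c1, ind_pos h]
        linarith
      · have := G_mono sR (c := 4 * l) (c' := l) (o := x) (o' := o)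
          (fun z hz => by linarith [ht x o z, hs x o]) x
        linarith [(hB _ _).1 c1]
    by_cases c2 : 5 * l ≤ D o x
    · left
      have := G_compl sR (c := 4 * l) (c' := l) (o := x) (o' := o)
        (fun z hz => by linarith [ht o z x, hs x z]) x
      linarith [not_lt.1 (mt (hB _ _).2 c1)]
    have split : β * ∑ y, A x y * (2 * G R D l o y + N y + φ o y) =
        2 * (β * ∑ y, A x y * G R D l o y) + β * ∑ y, A x y * N y + β * ∑ y, A x y * φ o y := by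
      simp only [mul_sum, ← sum_add_distrib]
      exact sum_congr rfl fun _ _ => by ring
    by_cases c3 : B l x
    · refine Or.inr ⟨c2, ?_⟩
      have a1 : β * ∑ y, A x y * φ o y ≤ 2 * (β * ∑ y, A x y * G Q D (3 * l) o y) := by
        rw [mul_left_comm, mul_sum _ _ 2]
        refine mul_le_mul_of_nonneg_left (sum_le_sum fun y _ => ?_) b0
        rw [mul_left_comm]
        refine mul_le_mul_of_nonneg_left ?_ (hA.1 _ _)
        rw [hφ]
        split_ifs with d1 d2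
        · linarith [qb (3 * l) o y fun h => h.2 d1, s0 (3 * l) o y]
        · exact le_rfl
        · exact mul_nonneg zero_le_two (G_nonneg sQ ..)
      have a2 : φ o x = 2 * G Q D (3 * l) o x := by rw [hφ, if_neg c1, if_pos c3]
      linarith [G1 l o x, N1 x, e0 x, qa (3 * l) o x ⟨c3, c1⟩]
    by_cases c4 : 2 * l ≤ D o x
    · left
      have := G_compl sR (c := l) (c' := l) (o := x) (o' := o)
        (fun z hz => by linarith [ht o z x, hs x z]) x
      linarith [not_lt.1 (mt (hB _ _).2 c3)]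
    refine Or.inr ⟨c2, ?_⟩
    have far : ∀ z, 3 * l ≤ D o z → l ≤ D x z := fun z hz => by linarith [ht o x z]
    have a1 : β * ∑ y, A x y * φ o y ≤
        2 * (β * ∑ y, A x y * (ind (B l y ∧ ¬ B (4 * l) y) * G Q D l x y)) +
          β * ∑ y, A x y * ind (l ≤ D x y) := by
      rw [mul_left_comm, ← mul_add, mul_sum _ _ 2, ← sum_add_distrib]
      refine mul_le_mul_of_nonneg_left (sum_le_sum fun y _ => ?_) b0
      rw [mul_left_comm, ← mul_add]
      refine mul_le_mul_of_nonneg_left ?_ (hA.1 _ _)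
      have i0 := mul_nonneg (ind_nonneg (B l y ∧ ¬ B (4 * l) y)) (G_nonneg sQ D l x y)
      rw [hφ]
      split_ifs with d1 d2
      · linarith [ind_mono (far y)]
      · rw [ind_pos ⟨d2, d1⟩]
        linarith [G_mono sQ far y, ind_nonneg (l ≤ D x y)]
      · linarith [ind_nonneg (l ≤ D x y)]
    have a2 : β * ∑ y, A x y * ind (l ≤ D x y) ≤ ∑ y, A x y * ind (l ≤ D x y) :=
      mul_le_of_le_one_left (sum_nonneg fun y _ => mul_nonneg (hA.1 _ _) (ind_nonneg _)) b1.le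
    have a3 := he x
    rw [ind_pos fun h : B l x ∧ ¬ B (4 * l) x => c3 h.1] at a3
    linarith [G1 l o x, N1 x, qb l x x fun h => c3 h.1, ind_nonneg (l ≤ D x x)]
  have hit : ∀ o, β ^ t * ∑ w : Fin (t + 1) → Fin n, (if w 0 = o then μ o else 0) * wt A w *
      ind (∃ s, 5 * l ≤ D o (w s)) ≤ μ o * (6 * G R D l o o + N o) := by
    intro o
    have := path_hit hA (fun x => 5 * l ≤ D o x) b0 b1.le _ (fun x => add_nonneg (add_nonneg
      (mul_nonneg zero_le_two (G_nonneg sR D l o x)) (N0 x)) (φ0 o x)) (sup o) t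
      (fun x => if x = o then μ o else 0) fun x => by split_ifs; exacts [h0 o, le_rfl]
    refine le_trans (le_of_eq (by unfold ind; congr!)) (this.trans ?_)
    simp only [ite_mul, zero_mul, sum_ite_eq', mem_univ, if_true]
    refine mul_le_mul_of_nonneg_left ?_ (h0 o)
    have : φ o o ≤ 4 * G R D l o o := by
      have g0 := G_nonneg sR D l o o
      rw [hφ]
      split_ifs with d1 d2
      · rw [ind_neg (by rw [hD]; linarith)]; linarith
      · linarith [G_le sQ D (3 * l) o o, (hB _ _).1 d2]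
      · linarith
    linarith
  have tot : β ^ t * ∑ w : Fin (t + 1) → Fin n, μ (w 0) * wt A w * ind (∃ s, 5 * l ≤ D (w 0) (w s))
      ≤ 6 * ∑ o, μ o * G R D l o o + (1 - β)⁻¹ * ∑ x, μ x * e x := by
    refine le_trans (le_of_eq ?_) ((sum_le_sum fun o (_ : o ∈ univ) => hit o).trans_eq ?_)
    · rw [← mul_sum, sum_comm]
      congr 1
      refine sum_congr rfl fun w _ => ?_
      simp only [ite_mul, zero_mul, sum_ite_eq, mem_univ, if_true]
    · simp only [mul_add, sum_add_distrib, hN, mul_sum]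
      congr 1
      · exact sum_congr rfl fun _ _ => by ring
      · rw [sum_comm]
        refine sum_congr rfl fun z _ => ?_
        simp only [← mul_assoc, ← sum_mul, r2]
        ring
  refine (mul_le_mul_of_nonneg_left tot (sq_nonneg l)).trans ?_
  rw [mul_add, mul_left_comm _ 6, mul_left_comm _ (1 - β)⁻¹]
  refine add_le_add (le_of_eq ?_) (mul_le_mul_of_nonneg_left ?_ (inv_pos.2 hk).le)
  · simp only [G, mul_sum]
    exact sum_congr rfl fun _ _ => sum_congr rfl fun _ _ => by ring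
  · simp only [he, mul_add, sum_add_distrib]
    refine add_le_add (le_trans ?_ ((mul_le_mul_of_nonneg_left q2 zero_le_four).trans_eq ?_))
      (le_of_eq ?_)
    · simp only [G, mul_sum]
      refine sum_le_sum fun x _ => sum_le_sum fun z _ => ?_
      have i1 : l ^ 2 * ind (l ≤ D x z) ≤ D x z ^ 2 := by
        by_cases h : l ≤ D x z
        · rw [ind_pos h, mul_one]; exact pow_le_pow_left₀ hl.le h 2
        · rw [ind_neg h, mul_zero]; exact sq_nonneg _
      have i2 : 0 ≤ 4 * (μ x * ind (¬ (B l x ∧ ¬ B (4 * l) x)) * Q x z) :=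
        mul_nonneg (by norm_num) (mul_nonneg (mul_nonneg (h0 x) (ind_nonneg _)) (sQ.1 x z))
      exact le_trans (le_of_eq (by ring)) ((mul_le_mul_of_nonneg_left i1 i2).trans_eq (by ring))
    · simp only [mul_add, sum_add_distrib]
    · simp only [mul_sum]
      exact sum_congr rfl fun _ _ => sum_congr rfl fun _ _ => by ring

lemma ind_eq (a b : ℝ) : ind (a ≤ b) = if a ≤ b then 1 else 0 := by
  unfold ind; congr

lemma tele (P : ℕ → Prop) (h : ∀ k, P (k + 1) → P k) (L : ℕ) :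
    ∑ k ∈ range L, ind (P k ∧ ¬ P (k + 1)) ≤ 1 := by
  have : ∀ k, ind (P k ∧ ¬ P (k + 1)) = ind (P k) - ind (P (k + 1)) := fun k => by
    by_cases h1 : P (k + 1)
    · rw [ind_pos h1, ind_pos (h k h1), ind_neg fun a => a.2 h1, sub_self]
    · by_cases h2 : P k
      · rw [ind_pos h2, ind_neg h1, ind_pos ⟨h2, h1⟩, sub_zero]
      · rw [ind_neg h2, ind_neg h1, ind_neg fun a => h2 a.1, sub_zero]
  simp only [this]
  rw [sum_range_sub' fun k => ind (P k)]
  linarith [ind_le (P 0), ind_nonneg (P L)]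

lemma swap3 (L : ℕ) (c : Fin n → Fin n → ℝ) (hc : ∀ x y, 0 ≤ c x y) (F : ℕ → Fin n → Fin n → ℝ)
    (b : Fin n → Fin n → ℝ) (h : ∀ x y, ∑ k ∈ range L, F k x y ≤ b x y) :
    ∑ k ∈ range L, ∑ x, ∑ y, c x y * F k x y ≤ ∑ x, ∑ y, c x y * b x y := by
  rw [sum_comm]
  refine sum_le_sum fun x _ => ?_
  rw [sum_comm]
  refine sum_le_sum fun y _ => ?_
  rw [← mul_sum]
  exact mul_le_mul_of_nonneg_left (h x y) (hc x y)

theorem maximal {D : Fin n → Fin n → ℝ} {M : ℝ} (hM : MT D M) (hD : ∀ x, D x x = 0)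
    (hs : ∀ x y, D x y = D y x) (ht : ∀ x y z, D x z ≤ D x y + D y z) {μ : Fin n → ℝ}
    {A : Matrix (Fin n) (Fin n) ℝ} (h0 : ∀ i, 0 ≤ μ i) (h1 : ∑ i, μ i = 1) (hA : St A)
    (hr : ∀ i j, μ i * A i j = μ j * A j i) (t : ℕ) :
    ∑ w : Fin (t + 1) → Fin n, μ (w 0) * wt A w * (⨆ s, D (w s) (w 0) ^ 2) ≤
      (32000 * M ^ 2 + 3200) * t * ∑ i, ∑ j, μ i * A i j * D i j ^ 2 := by
  rcases Nat.eq_zero_or_pos t with rfl | tp
  · simp [hD]
  have tr : (1 : ℝ) ≤ t := by exact_mod_cast tp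
  have D0 : ∀ x y, 0 ≤ D x y := fun x y => by linarith [ht x y x, hs x y, hD x]
  obtain ⟨β, hβ⟩ : ∃ β : ℝ, β = 1 - 1 / (2 * t) := ⟨_, rfl⟩
  have i1 : 0 < 1 / (2 * (t : ℝ)) := by positivity
  have i2 : 1 / (2 * (t : ℝ)) ≤ 1 / 2 := one_div_le_one_div_of_le (by norm_num) (by linarith)
  have b0 : 0 ≤ β := by linarith
  have b1 : β < 1 := by linarith
  have b2 : (1 - β)⁻¹ = 2 * t := by rw [hβ]; simp
  have b3 : 1 / 2 ≤ β ^ t := by
    have := one_add_mul_le_pow (a := -(1 / (2 * (t : ℝ)))) (by linarith) t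
    rw [hβ, sub_eq_add_neg]
    refine le_trans (le_of_eq ?_) this
    field_simp
    ring
  obtain ⟨R, sR, r1, r2, r3⟩ := res hA b0 b1
  obtain ⟨E, hE⟩ : ∃ E, E = ∑ i, ∑ j, μ i * A i j * D i j ^ 2 := ⟨_, rfl⟩
  have c0 : ∀ x y, 0 ≤ μ x * A x y := fun x y => mul_nonneg (h0 x) (hA.1 x y)
  have E0 : 0 ≤ E := hE ▸ sum_nonneg fun x _ => sum_nonneg fun y _ => mul_nonneg (c0 x y) (sq_nonneg _)
  have r4 : ∑ i, ∑ j, μ i * R i j * D i j ^ 2 ≤ M ^ 2 * E * (2 * t) := by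
    refine (r3 μ (fun i j => D i j ^ 2) (M ^ 2 * E) fun s =>
      (hM μ A h0 h1 hA hr s).trans_eq (by rw [← hE]; ring)).trans
      (mul_le_mul_of_nonneg_left ?_ (by positivity))
    rw [div_eq_mul_inv, b2]
    exact mul_le_of_le_one_left (by positivity) b1.le
  rw [← hE]
  refine le_of_forall_pos_le_add fun η hη => ?_
  obtain ⟨ε, hε, he⟩ : ∃ ε : ℝ, 0 < ε ∧ 25 * ε ^ 2 = η :=
    ⟨√η / 5, by positivity, by rw [div_pow, Real.sq_sqrt hη.le]; ring⟩
  obtain ⟨L, hL⟩ := pow_unbounded_of_one_lt ((∑ x, ∑ y, D x y) / ε) (show (1 : ℝ) < 4 by norm_num)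
  have hL' : ∀ x y, D x y < 5 * (ε * 4 ^ L) := fun x y => by
    rw [div_lt_iff₀ hε] at hL
    have a := single_le_sum (f := fun x => ∑ y, D x y)
      (fun x _ => sum_nonneg fun y _ => D0 x y) (mem_univ x)
    have b := single_le_sum (f := fun y => D x y) (fun y _ => D0 x y) (mem_univ y)
    have c : 0 < ε * 4 ^ L := by positivity
    linarith
  have s1 : ∑ w : Fin (t + 1) → Fin n, μ (w 0) * wt A w * (⨆ s, D (w s) (w 0) ^ 2) ≤
      25 * ε ^ 2 + 400 * ∑ k ∈ range L, (ε * 4 ^ k) ^ 2 * ∑ w : Fin (t + 1) → Fin n,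
        μ (w 0) * wt A w * ind (∃ s, 5 * (ε * 4 ^ k) ≤ D (w 0) (w s)) := by
    have m := (path_mass hA t μ).trans h1
    refine (sum_le_sum (g := fun w => μ (w 0) * wt A w * (25 * ε ^ 2 + ∑ k ∈ range L,
      400 * (ε * 4 ^ k) ^ 2 * ind (∃ s, 5 * (ε * 4 ^ k) ≤ D (w 0) (w s)))) fun w _ => ?_).trans_eq ?_
    · refine mul_le_mul_of_nonneg_left (ciSup_le fun s => ?_) (mul_nonneg (h0 _) (wt_nonneg hA w))
      refine (lay1 hε (D0 _ _) L (hL' _ _)).trans (add_le_add le_rfl (sum_le_sum fun k _ => ?_))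
      rw [← ind_eq]
      exact mul_le_mul_of_nonneg_left (ind_mono fun h => ⟨s, hs _ _ ▸ h⟩) (by positivity)
    · simp only [mul_add, sum_add_distrib, ← sum_mul, m, one_mul, mul_sum]
      rw [sum_comm]
      congr 1
      exact sum_congr rfl fun _ _ => sum_congr rfl fun _ _ => by ring
  have s2 := sum_le_sum fun k (_ : k ∈ range L) =>
    scale hM hD hs ht h0 h1 hA hr b0 b1 sR r1 (r2 μ hr) (l := ε * 4 ^ k) (by positivity) t
  have l2 : ∀ x y, ∑ k ∈ range L, (ε * 4 ^ k) ^ 2 * ind (ε * 4 ^ k ≤ D x y) ≤ 2 * D x y ^ 2 :=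
    fun x y => by simpa only [ind_eq] using lay2 hε (D x y) L
  have two : ∀ c : Fin n → Fin n → ℝ, ∑ x, ∑ y, c x y * (2 * D x y ^ 2) =
      2 * ∑ x, ∑ y, c x y * D x y ^ 2 := fun c => by
    simp only [mul_sum]
    exact sum_congr rfl fun _ _ => sum_congr rfl fun _ _ => by ring
  have t1 := (swap3 L _ (fun x y => mul_nonneg (h0 x) (sR.1 x y)) _ _ l2).trans_eq (two _)
  have t2 := (swap3 L _ c0 _ _ l2).trans_eq (two _)
  have te : ∀ x, ∑ k ∈ range L,
      ind (1 / 2 < G R D (ε * 4 ^ k) x x ∧ ¬ 1 / 2 < G R D (4 * (ε * 4 ^ k)) x x) ≤ 1 := fun x => by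
    have := tele (fun k => 1 / 2 < G R D (ε * 4 ^ k) x x) (fun k h => h.trans_le (G_mono sR
      (fun z hz => le_trans (by gcongr <;> norm_num) hz) x)) L
    simpa only [pow_succ' (4 : ℝ), mul_left_comm ε 4] using this
  have t3 := swap3 L _ (fun x y => mul_nonneg (c0 x y) (sq_nonneg (D x y))) (fun k x y =>
    ind (1 / 2 < G R D (ε * 4 ^ k) x x ∧ ¬ 1 / 2 < G R D (4 * (ε * 4 ^ k)) x x) +
    ind (1 / 2 < G R D (ε * 4 ^ k) y y ∧ ¬ 1 / 2 < G R D (4 * (ε * 4 ^ k)) y y)) (fun _ _ => 2)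
    fun x y => by rw [sum_add_distrib]; linarith [te x, te y]
  simp only [← sum_mul, ← hE] at t2 t3
  rw [sum_add_distrib, ← mul_sum, ← mul_sum, sum_add_distrib, ← mul_sum, ← mul_sum, b2] at s2
  have s3 : ∑ k ∈ range L, (ε * 4 ^ k) ^ 2 * ∑ w : Fin (t + 1) → Fin n,
      μ (w 0) * wt A w * ind (∃ s, 5 * (ε * 4 ^ k) ≤ D (w 0) (w s)) ≤
      2 * ∑ k ∈ range L, (ε * 4 ^ k) ^ 2 * (β ^ t * ∑ w : Fin (t + 1) → Fin n,
      μ (w 0) * wt A w * ind (∃ s, 5 * (ε * 4 ^ k) ≤ D (w 0) (w s))) := by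
    rw [mul_sum]
    refine sum_le_sum fun k _ => ?_
    have p0 : 0 ≤ (ε * 4 ^ k) ^ 2 * ∑ w : Fin (t + 1) → Fin n,
        μ (w 0) * wt A w * ind (∃ s, 5 * (ε * 4 ^ k) ≤ D (w 0) (w s)) :=
      mul_nonneg (sq_nonneg _) (sum_nonneg fun w _ => mul_nonneg
        (mul_nonneg (h0 _) (wt_nonneg hA w)) (ind_nonneg _))
    exact (le_mul_of_one_le_left p0 (show 1 ≤ 2 * β ^ t by linarith)).trans_eq (by ring)
  have u1 := mul_le_mul_of_nonneg_left (add_le_add (mul_le_mul_of_nonneg_left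
    (mul_le_mul_of_nonneg_left t3 (sq_nonneg M)) (show (0 : ℝ) ≤ 4 by norm_num)) t2)
    (show (0 : ℝ) ≤ 2 * t by positivity)
  linarith

end Pool.Agent.H.MP_e2d16f_an
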