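import Mathlib

set_option autoImplicit false
open Finset

namespace Pool.Agent.H.MP_e2d16f_an

variable {n : ℕ}

def St (A : Matrix (Fin n) (Fin n) ℝ) : Prop := (∀ i j, 0 ≤ A i j) ∧ ∀ i, ∑ j, A i j = 1

lemma St.pow {A : Matrix (Fin n) (Fin n) ℝ} (h : St A) (t : ℕ) : St (A ^ t) := by
  induction t with
  | zero => exact ⟨fun i j => by simp only [pow_zero, Matrix.one_apply]; split_ifs <;> simp,
      fun i => by simp [Matrix.one_apply]⟩
  | succ t ih =>
    refine ⟨fun i j => ?_, fun i => ?_⟩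
    · rw [pow_succ, Matrix.mul_apply]
      exact sum_nonneg fun k _ => mul_nonneg (ih.1 _ _) (h.1 _ _)
    · simp only [pow_succ, Matrix.mul_apply]
      rw [sum_comm]
      simp only [← mul_sum, h.2, mul_one, ih.2]

lemma St.le_one {A : Matrix (Fin n) (Fin n) ℝ} (h : St A) (i j : Fin n) : A i j ≤ 1 :=
  (single_le_sum (fun k _ => h.1 i k) (mem_univ j)).trans_eq (h.2 i)

def wt (A : Matrix (Fin n) (Fin n) ℝ) {t : ℕ} (w : Fin (t + 1) → Fin n) : ℝ :=
  ∏ k : Fin t, A (w k.castSucc) (w k.succ)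

lemma wt_nonneg {A : Matrix (Fin n) (Fin n) ℝ} (h : St A) {t : ℕ} (w : Fin (t + 1) → Fin n) :
    0 ≤ wt A w := prod_nonneg fun _ _ => h.1 _ _

lemma sum_cons {t : ℕ} (F : (Fin (t + 1) → Fin n) → ℝ) :
    ∑ w, F w = ∑ x, ∑ v : Fin t → Fin n, F (Fin.cons x v) := by
  rw [← (Fin.consEquiv fun _ => Fin n).sum_comp, Fintype.sum_prod_type]
  rfl

lemma wt_cons (A : Matrix (Fin n) (Fin n) ℝ) {t : ℕ} (x : Fin n) (v : Fin (t + 1) → Fin n) :
    wt A (Fin.cons x v : Fin (t + 2) → Fin n) = A x (v 0) * wt A v := by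
  unfold wt
  rw [Fin.prod_univ_succ]
  rfl

lemma path_last (A : Matrix (Fin n) (Fin n) ℝ) (g : Fin n → ℝ) (t : ℕ) (ν : Fin n → ℝ) :
    ∑ w : Fin (t + 1) → Fin n, ν (w 0) * wt A w * g (w (Fin.last t)) =
      ∑ i, ∑ j, ν i * (A ^ t) i j * g j := by
  induction t generalizing ν with
  | zero =>
    rw [sum_cons]
    simp [wt, Matrix.one_apply]
  | succ t ih =>
    rw [sum_cons]
    refine sum_congr rfl fun x _ => ?_
    have := ih fun y => ν x * A x y
    simp only [wt_cons, Fin.cons_zero, ← mul_assoc]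
    refine this.trans ?_
    rw [sum_comm]
    refine sum_congr rfl fun j _ => ?_
    rw [pow_succ', Matrix.mul_apply, mul_sum, sum_mul]
    exact sum_congr rfl fun _ _ => by ring

lemma path_mass {A : Matrix (Fin n) (Fin n) ℝ} (h : St A) (t : ℕ) (ν : Fin n → ℝ) :
    ∑ w : Fin (t + 1) → Fin n, ν (w 0) * wt A w = ∑ i, ν i := by
  have := path_last A (fun _ => 1) t ν
  simpa [← mul_sum, (h.pow t).2] using this

open Classical in
lemma path_hit {A : Matrix (Fin n) (Fin n) ℝ} (h : St A) (S : Fin n → Prop) {β : ℝ} (h0 : 0 ≤ β)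
    (h1 : β ≤ 1) (H : Fin n → ℝ) (hH : ∀ x, 0 ≤ H x)
    (hs : ∀ x, 1 ≤ H x ∨ (¬ S x ∧ β * ∑ y, A x y * H y ≤ H x)) (t : ℕ) (ν : Fin n → ℝ)
    (hν : ∀ x, 0 ≤ ν x) :
    β ^ t * ∑ w : Fin (t + 1) → Fin n, ν (w 0) * wt A w * (if ∃ s, S (w s) then 1 else 0) ≤
      ∑ x, ν x * H x := by
  induction t generalizing ν with
  | zero =>
    rw [sum_cons, pow_zero, one_mul]
    refine sum_le_sum fun x _ => ?_
    simp only [wt, univ_unique, sum_singleton, univ_eq_empty, prod_empty, mul_one, Fin.cons_zero]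
    refine mul_le_mul_of_nonneg_left ?_ (hν x)
    rcases hs x with h2 | h2
    · split_ifs
      exacts [h2, hH x]
    · rw [if_neg]
      · exact hH x
      · rintro ⟨s, h3⟩
        rw [Fin.fin_one_eq_zero s] at h3
        exact h2.1 h3
  | succ t ih =>
    rw [sum_cons, mul_sum]
    refine sum_le_sum fun x _ => ?_
    simp only [wt_cons, Fin.cons_zero, mul_assoc, ← mul_sum]
    rw [mul_left_comm]
    refine mul_le_mul_of_nonneg_left ?_ (hν x)
    rcases hs x with h2 | h2
    · refine le_trans (mul_le_one₀ (pow_le_one₀ h0 h1) (sum_nonneg fun v _ => mul_nonneg (h.1 _ _)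
        (mul_nonneg (wt_nonneg h _) ?_)) ?_) h2
      · positivity
      refine le_trans ?_ ((path_mass h (t + 1 - 1) (fun y => A x y)).trans (h.2 x)).le
      refine sum_le_sum fun v _ => mul_le_mul_of_nonneg_left
        (mul_le_of_le_one_right (wt_nonneg h _) (by split_ifs; exacts [le_rfl, zero_le_one]))
        (h.1 _ _)
    · refine le_trans ?_ h2.2
      rw [pow_succ', mul_assoc]
      refine mul_le_mul_of_nonneg_left (le_trans (le_of_eq ?_) (ih (fun y => A x y) (h.1 x))) h0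
      congr 1
      refine sum_congr rfl fun v _ => ?_
      simp [Fin.exists_fin_succ, h2.1, mul_assoc]

lemma res {A : Matrix (Fin n) (Fin n) ℝ} (h : St A) {β : ℝ} (h0 : 0 ≤ β) (h1 : β < 1) :
    ∃ R : Matrix (Fin n) (Fin n) ℝ, St R ∧
      (∀ (g : Fin n → ℝ) x, ∑ z, R x z * g z = (1 - β) * g x + β * ∑ y, A x y * ∑ z, R y z * g z) ∧
      (∀ μ : Fin n → ℝ, (∀ i j, μ i * A i j = μ j * A j i) → ∀ y, ∑ x, μ x * R x y = μ y) ∧
      ∀ (μ : Fin n → ℝ) (D : Fin n → Fin n → ℝ) (C : ℝ),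
        (∀ t : ℕ, ∑ i, ∑ j, μ i * (A ^ t) i j * D i j ≤ C * t) →
        ∑ i, ∑ j, μ i * R i j * D i j ≤ C * (β / (1 - β)) := by
  have hb : 0 < 1 - β := by linarith
  have geo : HasSum (fun j : ℕ => (1 - β) * β ^ j) 1 := by
    simpa [hb.ne'] using (hasSum_geometric_of_lt_one h0 h1).mul_left (1 - β)
  have hs : ∀ x y, Summable fun j : ℕ => (1 - β) * β ^ j * (A ^ j) x y := fun x y =>
    geo.summable.of_nonneg_of_le (fun j => mul_nonneg (by positivity) ((h.pow j).1 _ _))
      fun j => mul_le_of_le_one_right (by positivity) ((h.pow j).le_one _ _)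
  choose R hR using hs
  have rc : ∀ x z, R x z = (1 - β) * (if x = z then 1 else 0) +
      β * ∑ y, A x y * R y z := by
    intro x z
    have a1 := (hasSum_nat_add_iff' 1).2 (hR x z)
    have a2 := (hasSum_sum fun y (_ : y ∈ univ) => (hR y z).mul_left (A x y)).mul_left β
    have e : (fun j => (1 - β) * β ^ (j + 1) * (A ^ (j + 1)) x z) =
        fun j => β * ∑ y, A x y * ((1 - β) * β ^ j * (A ^ j) y z) := by
      funext j
      rw [pow_succ' A, Matrix.mul_apply, mul_sum, mul_sum]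
      exact sum_congr rfl fun _ _ => by ring
    rw [e] at a1
    have := a1.unique a2
    simp only [range_one, sum_singleton, pow_zero, mul_one, Matrix.one_apply] at this
    linarith
  refine ⟨Matrix.of R, ⟨fun x y => (hR x y).nonneg fun j => mul_nonneg (by positivity)
    ((h.pow j).1 _ _), fun x => ?_⟩, fun g x => ?_, fun μ hμ y => ?_, fun μ D C hC => ?_⟩
  · refine (hasSum_sum fun y (_ : y ∈ univ) => hR x y).unique ?_
    simpa only [← mul_sum, (h.pow _).2, mul_one] using geo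
  · simp only [Matrix.of_apply]
    rw [sum_congr rfl fun z _ => by rw [rc x z]]
    simp only [add_mul, sum_add_distrib, mul_assoc, ite_mul, one_mul, zero_mul, ← mul_sum,
      sum_ite_eq, mem_univ, if_true, sum_mul]
    rw [sum_comm]
    simp only [← mul_sum]
  · have st : ∀ j : ℕ, ∀ y, ∑ x, μ x * (A ^ j) x y = μ y := by
      intro j
      induction j with
      | zero => intro y; simp [Matrix.one_apply]
      | succ j ih =>
        intro y
        simp only [pow_succ, Matrix.mul_apply, mul_sum, ← mul_assoc]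
        rw [sum_comm]
        simp only [← sum_mul, ih, hμ _ y, ← mul_sum, h.2, mul_one]
    refine (hasSum_sum fun x (_ : x ∈ univ) => (hR x y).mul_left (μ x)).unique ?_
    have e : (fun j => ∑ x, μ x * ((1 - β) * β ^ j * (A ^ j) x y)) =
        fun j => (1 - β) * β ^ j * μ y := by
      funext j
      rw [← st j y, mul_sum]
      exact sum_congr rfl fun _ _ => by ring
    rw [e]
    simpa only [one_mul] using geo.mul_right (μ y)
  · have a1 := hasSum_sum fun i (_ : i ∈ univ) => hasSum_sum fun j (_ : j ∈ univ) =>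
      ((hR i j).mul_left (μ i)).mul_right (D i j)
    have a2 := (hasSum_coe_mul_geometric_of_norm_lt_one (r := β)
      (by rwa [Real.norm_of_nonneg h0])).mul_left (C * (1 - β))
    refine (hasSum_le (fun t => ?_) a1 a2).trans_eq (by field_simp)
    have := mul_le_mul_of_nonneg_left (hC t) (show 0 ≤ (1 - β) * β ^ t by positivity)
    refine le_trans (le_of_eq ?_) (this.trans_eq (by ring))
    simp only [mul_sum]
    exact sum_congr rfl fun _ _ => sum_congr rfl fun _ _ => by ring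

lemma lay1 {ε m : ℝ} (hε : 0 < ε) (hm : 0 ≤ m) (L : ℕ) (h : m < 5 * (ε * 4 ^ L)) :
    m ^ 2 ≤ 25 * ε ^ 2 + ∑ k ∈ range L, 400 * (ε * 4 ^ k) ^ 2 * if 5 * (ε * 4 ^ k) ≤ m then 1 else 0 := by
  induction L with
  | zero => simp only [pow_zero, mul_one, range_zero, sum_empty, add_zero] at h ⊢; nlinarith
  | succ L ih =>
    rw [sum_range_succ]
    split_ifs with h1
    · have : 0 ≤ ∑ k ∈ range L, 400 * (ε * 4 ^ k) ^ 2 * if 5 * (ε * 4 ^ k) ≤ m then (1 : ℝ) else 0 :=
        sum_nonneg fun k _ => mul_nonneg (by positivity) (by split_ifs <;> simp)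
      rw [pow_succ] at h
      nlinarith [sq_nonneg ε]
    · simpa using ih (not_le.1 h1)

lemma lay2 {ε : ℝ} (hε : 0 < ε) (d : ℝ) (L : ℕ) :
    ∑ k ∈ range L, (ε * 4 ^ k) ^ 2 * (if ε * 4 ^ k ≤ d then 1 else 0) ≤ 2 * d ^ 2 := by
  have h1 : ∀ L : ℕ, ∑ k ∈ range L, (ε * 4 ^ k) ^ 2 * (if ε * 4 ^ k ≤ d then 1 else 0) ≤
      (ε * 4 ^ L) ^ 2 := by
    intro L
    induction L with
    | zero => simp; positivity
    | succ L ih =>
      rw [sum_range_succ, pow_succ 4 L]
      split_ifs <;> nlinarith [sq_nonneg (ε * 4 ^ L)]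
  induction L with
  | zero => simp; positivity
  | succ L ih =>
    rw [sum_range_succ]
    split_ifs with h
    · have := h1 L
      have h2 : (ε * 4 ^ L) ^ 2 ≤ d ^ 2 := pow_le_pow_left₀ (by positivity) h 2
      linarith
    · simpa using ih

end Pool.Agent.H.MP_e2d16f_an
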